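import Pool.Agent.Helper76_TOR.TwQ
import Pool.Agent.Helper79_TOR.Frm

/-! TOW, module FRM: framings of the holes. -/

set_option autoImplicit false

namespace Pool.Agent.TOW.H79

open FreeGroup Pool.Agent.TOW Pool.Agent.TST Pool.Agent.TOR.H29

theorem ev_ep {α : Type} [DecidableEq α] (u : FreeGroup α) (l : α) : ev u l = ep l u := by
  induction u using FreeGroup.induction_on with
  | C1 => rw [ev_one, ep_one]; rfl
  | of a =>
    rw [ev_of]
    by_cases h : a = l
    · subst h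
      rw [Pi.single_eq_same, ep_self]
    · rw [Pi.single_eq_of_ne (Ne.symm h), ep_ne h]
  | inv_of a h => rw [ev_inv, ep_inv, Pi.neg_apply, h]
  | mul x y hx hy => rw [ev_mul, ep_mul, Pi.add_apply, hx, hy]

/-- SS is contained in Glx -/
theorem SS_le {α η : Type} [DecidableEq α] [Fintype α] (hl : η → α) (w : FreeGroup α) (b : α) :
    SS hl w b ≤ Glx hl w b := by
  rintro φ ⟨⟨h1, h2⟩, h3, n, h4⟩
  refine ⟨⟨h1, fun u a ha => ?_⟩, ?_, fun h => ?_⟩
  · rw [Pi.sub_apply, ev_ep, ev_ep, h2 a ha, sub_self]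
  · funext l
    rw [ev_ep, ev_ep, h3]
  · obtain ⟨c, hc, hc'⟩ := h4 h
    refine ⟨c, hc, fun a ha ha' => ?_⟩
    rw [ev_ep, hc' a ha', ep_ne (Ne.symm ha), mul_zero]

/-- FRM -/
theorem frm : FRM := by
  intro α η _ hl _ w b _
  classical
  have : Fintype α := Fintype.ofFinite α
  refine ⟨(sG hl w b).comp (Subgroup.inclusion (SS_le hl w b)), fun φ => ⟨fun u => ?_,
    fun h c hc hc' => ?_⟩⟩
  · exact sG_jn (Subgroup.inclusion (SS_le hl w b) φ) u
  · have h1 := sG_y (Subgroup.inclusion (SS_le hl w b) φ) h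
    have h2 : fr hl (φ : MulAut (FreeGroup α)) h = c := fr_eq hc (by rw [ev_ep]; exact hc')
    rw [MonoidHom.comp_apply, h1]
    exact congrArg (fun t => of (Sum.inr h) * (jn η t)⁻¹) h2

end Pool.Agent.TOW.H79
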